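import Mathlib
import Pool.Agent.H.MP_d240f8_an.P

namespace Pool.Agent.Results.MP_d240f8_an.Sharp
open Polynomial

/-- sup norm on `[-1,1]` -/
noncomputable def nrm (P : ℝ[X]) : ℝ := ⨆ x : Set.Icc (-1:ℝ) 1, |P.eval (x:ℝ)|

/-- degree exactly `n`, all `n` zeros (with multiplicity) real and in `[-1,1]` -/
def cls (n : ℕ) (P : ℝ[X]) : Prop :=
  P.natDegree = n ∧ Multiset.card P.roots = n ∧ ∀ x ∈ P.roots, x ∈ Set.Icc (-1:ℝ) 1

noncomputable def ratio (P : ℝ[X]) : ℝ := nrm (derivative (derivative P)) / nrm P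

noncomputable def Q (m : ℕ) : ℝ[X] := (1 - X)^m * (1 + X)^(m + 1)

theorem result (m : ℕ) (hm : 3 ≤ m) :
    IsLeast {r : ℝ | ∃ P : ℝ[X], cls (2 * m + 1) P ∧ r = ratio P} (ratio (Q m)) ∧
    ∀ P : ℝ[X], cls (2 * m + 1) P →
      (ratio P = ratio (Q m) ↔
        ∃ c : ℝ, c ≠ 0 ∧ (P = C c * Q m ∨ P = C c * (Q m).comp (-X))) := by
  obtain ⟨k, rfl⟩ : ∃ k, m = k + 2 := ⟨m - 2, by omega⟩
  have ex : ∀ P : ℝ[X], (∃ c : ℝ, c ≠ 0 ∧ (P = C c * Q (k + 2) ∨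
      P = C c * (Q (k + 2)).comp (-X))) → ratio P = ratio (Q (k + 2)) := by
    rintro P ⟨c, hc, rfl | rfl⟩
    · exact Pool.Agent.H.MP_d240f8_an.rt_C c hc _
    · exact (Pool.Agent.H.MP_d240f8_an.rt_C c hc _).trans (Pool.Agent.H.MP_d240f8_an.rt_neg _)
  have mn : ∀ P : ℝ[X], cls (2 * (k + 2) + 1) P → ratio (Q (k + 2)) < ratio P ∨
      ∃ c : ℝ, c ≠ 0 ∧ (P = C c * Q (k + 2) ∨ P = C c * (Q (k + 2)).comp (-X)) :=
    fun P hP => Pool.Agent.H.MP_d240f8_an.main k (by omega) P hP.1 hP.2.1 hP.2.2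
  refine ⟨⟨⟨Q (k + 2), Pool.Agent.H.MP_d240f8_an.Q_cls _, rfl⟩, ?_⟩, fun P hP => ⟨fun h => ?_, ex P⟩⟩
  · rintro r ⟨P, hP, rfl⟩
    rcases mn P hP with h | h
    · exact h.le
    · exact (ex P h).ge
  · exact (mn P hP).resolve_left (fun q => q.ne' h)

end Pool.Agent.Results.MP_d240f8_an.Sharp
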